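import Pool.Agent.H.MP_233b81_lc.Chain
import Pool.Agent.H.MP_233b81_lc.Anti

namespace Pool.Agent.Results.MP_233b81_lc.No
open Pool.Agent.H.MP_233b81_lc Function Set

/-- computably bounded `Π⁰₁` class -/
def CB (P : Set (ℕ → ℕ)) : Prop := ∃ (T : Set (List ℕ)) (g : List ℕ → ℕ), ComputablePred (· ∈ T) ∧ Computable g ∧
  (∀ σ ∈ T, ∀ τ, τ <+: σ → τ ∈ T) ∧ (∀ σ i, σ ++ [i] ∈ T → i < g σ) ∧ P = {x | ∀ n, (List.range n).map x ∈ T}

/-- decompositions into `k` chains -/
def Chains (A : Type) [PartialOrder A] (k : ℕ) : Set (A → Fin k) := {f | ∀ j, IsChain (· ≤ ·) (f ⁻¹' {j})}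

/-- decompositions into `k` antichains -/
def Antichains (A : Type) [PartialOrder A] (k : ℕ) : Set (A → Fin k) := {f | ∀ j, IsAntichain (· ≤ ·) (f ⁻¹' {j})}

theorem result : (∀ (A : Type) [PartialOrder A] (k : ℕ), ((Chains A k).Countable → (Chains A k).Finite) ∧
      ((Antichains A k).Countable → (Antichains A k).Finite)) ∧
    ∃ P, CB P ∧ ∀ (A : Type) [PartialOrder A] (k : ℕ),
      (¬ ∃ F : Chains A k → P, Surjective F ∧ ∀ p, (F ⁻¹' {p}).Finite) ∧
      ¬ ∃ F : Antichains A k → P, Surjective F ∧ ∀ p, (F ⁻¹' {p}).Finite := by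
  have h : ∀ (A : Type) [PartialOrder A] (k : ℕ), ((Chains A k).Countable → (Chains A k).Finite) ∧
      ((Antichains A k).Countable → (Antichains A k).Finite) := fun A _ k => by
    have e1 : Chains A k = Ch k A := Set.ext fun f => ⟨fun h x y e => (eq_or_ne x y).elim (fun e => .inl e.le)
      (h (f y) e rfl), fun h j x hx y hy _ => h x y (hx.trans hy.symm)⟩
    have e2 : Antichains A k = Col k A := Set.ext fun f => ⟨fun h x y l e => h (f y) e rfl l.ne l.le,
      fun h j x hx y hy n l => h x y (l.lt_of_ne n) (hx.trans hy.symm)⟩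
    rw [e1, e2]; exact ⟨ch_fin, col_fin⟩
  refine ⟨h, {x | ∀ n, ((List.range n).map x).sum ≤ 1}, ⟨{σ | σ.sum ≤ 1}, fun _ => 2, ?_, .const _, ?_, ?_, rfl⟩, ?_⟩
  · have : Primrec fun σ : List ℕ => σ.sum := (Primrec.list_foldr Primrec.id (Primrec.const 0)
      (Primrec.nat_add.comp (Primrec.fst.comp .snd) (Primrec.snd.comp .snd)).to₂).of_eq fun σ => by
        induction σ <;> simp_all
    exact (Primrec.nat_le.comp this (.const 1)).computablePred
  · rintro _ h τ ⟨ρ, rfl⟩
    simp only [mem_ofPred_eq, List.sum_append] at h ⊢; omega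
  · intro σ i h
    simp only [mem_ofPred_eq, List.sum_append, List.sum_singleton] at h ⊢; omega
  have s : ∀ (x : ℕ → ℕ) n, ((List.range n).map x).sum = ∑ i ∈ Finset.range n, x i := fun x n => by
    induction n <;> simp_all [List.range_succ, Finset.sum_range_succ]
  rw [show {x : ℕ → ℕ | ∀ n, ((List.range n).map x).sum ≤ 1} = {x : ℕ → ℕ | ∀ n, ∑ i ∈ Finset.range n, x i ≤ 1} by
    simp only [s]]
  have c : {x : ℕ → ℕ | ∀ n, ∑ i ∈ Finset.range n, x i ≤ 1}.Countable := by
    refine ((countable_range fun n : ℕ => (Pi.single n 1 : ℕ → ℕ)).insert 0).mono fun x hx => ?_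
    by_cases e : x = 0
    · exact .inl e
    obtain ⟨n, hn⟩ := ne_iff.1 e
    refine .inr ⟨n, funext fun m => ?_⟩
    by_cases e : m = n
    · have := (Finset.single_le_sum (fun _ _ => Nat.zero_le _) (Finset.self_mem_range_succ n)).trans (hx _)
      simp at hn; simp [e]; omega
    · have := (Finset.add_le_sum (f := x) (s := Finset.range (m + n + 1)) (fun _ _ => Nat.zero_le _)
        (Finset.mem_range.2 (by omega)) (Finset.mem_range.2 (by omega)) e).trans (hx _)
      simp at hn; simp [e]; omega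
  have i : {x : ℕ → ℕ | ∀ n, ∑ i ∈ Finset.range n, x i ≤ 1}.Infinite :=
    infinite_of_injective_forall_mem (f := fun n : ℕ => (Pi.single n 1 : ℕ → ℕ)) (fun m n e => by
      by_contra ne; simpa [ne] using congrFun e m) fun m n => by
        simp only [Finset.sum_pi_single']; split_ifs <;> simp
  have k : ∀ {β : Type} (Q : Set β), (Q.Countable → Q.Finite) →
      ¬ ∃ F : Q → {x : ℕ → ℕ | ∀ n, ∑ i ∈ Finset.range n, x i ≤ 1}, Surjective F ∧ ∀ p, (F ⁻¹' {p}).Finite := by
    rintro β Q hQ ⟨F, h1, h2⟩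
    have := c.to_subtype
    have : (univ : Set Q).Countable := (countable_iUnion fun p => (h2 p).countable).mono fun q _ => mem_iUnion.2 ⟨F q, rfl⟩
    have := (hQ (countable_coe_iff.1 (countable_univ_iff.1 this))).to_subtype
    exact i (Finite.of_surjective F h1)
  exact fun A _ j => ⟨k _ (h A j).1, k _ (h A j).2⟩

end Pool.Agent.Results.MP_233b81_lc.No
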